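import Mathlib
import Pool.Agent.H848R3.Space

/-!
# MP_003b3e_an: the type 1 noncommutative Borsuk-Ulam conjecture is false

For every prime `p` the (classical) compact quantum group `C(ℤ_p)`, `ℤ_p` the additive group of
`p`-adic integers, acts freely on a commutative unital C*-algebra `A = C(X)`, `X` a nonempty
compact Hausdorff space, in such a way that there is an equivariant unital *-homomorphism from
`A` to the equivariant noncommutative join of `A` and `C(ℤ_p)`.

Here `A ⊗ C(G) = C(X × G)` (minimal tensor product of commutative C*-algebras), and the coaction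
dual to the action of the abelian group `G` on `X` is `δ : C(X) → C(X × G)`,
`δ(a)(x, g) = a(g x)`.
-/

namespace Pool.Agent.Results.MP_003b3e_an.PadicCounterexample

open ContinuousMap Pool.Agent.H848R3

noncomputable section

/-- Unital *-homomorphisms of complex unital *-algebras. -/
def IsUnitalStarHom {A B : Type} [Semiring A] [Algebra ℂ A] [Star A]
    [Semiring B] [Algebra ℂ B] [Star B] (f : A → B) : Prop :=
  f 1 = 1 ∧ (∀ a b, f (a + b) = f a + f b) ∧ (∀ a b, f (a * b) = f a * f b) ∧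
    (∀ (c : ℂ) (a : A), f (c • a) = c • f a) ∧ ∀ a, f (star a) = star (f a)

section Definitions

variable (G X : Type) [TopologicalSpace G] [AddCommGroup G] [TopologicalSpace X]
  [AddAction G X]

/-- Density condition for the coaction `δ(a)(x, g) = a(g x)`: the closed linear span of the
`δ(a) (1 ⊗ h)` is `C(X) ⊗ C(G) = C(X × G)`. -/
def Podles [CompactSpace G] [CompactSpace X] : Prop :=
  closure (Submodule.span ℂ {F : C(X × G, ℂ) | ∃ (a : C(X, ℂ)) (h : C(G, ℂ)),
    ∀ x g, F (x, g) = a (g +ᵥ x) * h g} : Set C(X × G, ℂ)) = Set.univ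

/-- Ellwood's freeness condition: the closed linear span of the `(a ⊗ 1) δ(b)` is
`C(X) ⊗ C(G) = C(X × G)`. -/
def Ellwood [CompactSpace G] [CompactSpace X] : Prop :=
  closure (Submodule.span ℂ {F : C(X × G, ℂ) | ∃ (a b : C(X, ℂ)),
    ∀ x g, F (x, g) = a x * b (g +ᵥ x)} : Set C(X × G, ℂ)) = Set.univ

/-- `f ∈ C([0,1], C(X) ⊗ C(G))` lies in the equivariant noncommutative join of `C(X)` and `C(G)`:
`f(0) ∈ δ(C(X))` and `f(1) ∈ ℂ ⊗ C(G)`. -/
def InJoin (f : C(unitInterval, C(X × G, ℂ))) : Prop :=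
  (∃ a : C(X, ℂ), ∀ x g, f 0 (x, g) = a (g +ᵥ x)) ∧
    ∃ h : C(G, ℂ), ∀ x g, f 1 (x, g) = h g

/-- Equivariance `(id ⊗ Δ) ∘ φ = (φ ⊗ id) ∘ δ` of a map `φ` from `C(X)` to the join, evaluated at
the point `h` in the last leg: `φ(a)(t)(x, g + h) = φ(a_h)(t)(x, g)`, where `a_h` is the slice
`a_h(x) = δ(a)(x, h) = a(h x)` of `δ(a)` at `h`. -/
def Equivariant (φ : C(X, ℂ) → C(unitInterval, C(X × G, ℂ))) : Prop :=
  ∀ (a ah : C(X, ℂ)) (h : G), (∀ x, ah x = a (h +ᵥ x)) →
    ∀ (t : unitInterval) (x : X) (g : G), φ a t (x, g + h) = φ ah t (x, g)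

/-- The action of `G` on `X` is free (pointwise), the coaction of `C(G)` on `C(X)` satisfies the
density condition and Ellwood's freeness condition, and there is an equivariant unital
*-homomorphism from `C(X)` to the equivariant noncommutative join of `C(X)` and `C(G)`. -/
def IsCounterexample [CompactSpace G] [CompactSpace X] : Prop :=
  (∀ (g : G) (x : X), g +ᵥ x = x → g = 0) ∧ Podles G X ∧ Ellwood G X ∧
    ∃ φ : C(X, ℂ) → C(unitInterval, C(X × G, ℂ)),
      IsUnitalStarHom φ ∧ (∀ a, InJoin G X (φ a)) ∧ Equivariant G X φ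

end Definitions

theorem result (p : ℕ) [Fact p.Prime] :
    ∃ (X : Type) (_ : TopologicalSpace X) (_ : CompactSpace X) (_ : T2Space X) (_ : Nonempty X)
      (_ : AddAction ℤ_[p] X) (_ : ContinuousVAdd ℤ_[p] X), IsCounterexample ℤ_[p] X := by
  obtain ⟨K, c, hK1, hK0⟩ := exists_homotopy p
  let act : C(XX p × ℤ_[p], XX p) := ⟨fun q => q.2 +ᵥ q.1, by fun_prop⟩
  let F : C(unitInterval × (XX p × ℤ_[p]), XX p) := ⟨fun q => q.2.2 +ᵥ K (q.1, q.2.1), by fun_prop⟩
  refine ⟨XX p, inferInstance, inferInstance, inferInstance, inferInstance, inferInstance,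
    inferInstance, free_XX p, ?_, ?_, fun a => (a.comp F).curry, ?_, ?_, ?_⟩
  · have h := dense_products act (ContinuousMap.snd (α := XX p) (β := ℤ_[p])) (by
      rintro ⟨x, g⟩ ⟨y, h⟩ h1 h2
      have h2' : g = h := h2
      subst h2'
      have h1' : g +ᵥ x = g +ᵥ y := h1
      have h3 : x = y := by
        have := congrArg (fun z => (-g) +ᵥ z) h1'
        simpa using this
      rw [h3])
    unfold Podles
    rw [← h]
    congr 3
    ext F'
    constructor
    · rintro ⟨a, k, hk⟩
      exact ⟨a, k, by ext ⟨x, g⟩; exact hk x g⟩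
    · rintro ⟨a, k, rfl⟩
      exact ⟨a, k, fun _ _ => rfl⟩
  · have h := dense_products (ContinuousMap.fst (α := XX p) (β := ℤ_[p])) act (by
      rintro ⟨x, g⟩ ⟨y, h⟩ h1 h2
      have h1' : x = y := h1
      subst h1'
      have h2' : g +ᵥ x = h +ᵥ x := h2
      have h3 : (-h + g) +ᵥ x = x := by
        rw [add_vadd, h2', ← add_vadd]
        simp
      have h4 := free_XX p _ _ h3
      have h5 : g = h := by linear_combination h4
      rw [h5])
    unfold Ellwood
    rw [← h]
    congr 3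
    ext F'
    constructor
    · rintro ⟨a, k, hk⟩
      exact ⟨a, k, by ext ⟨x, g⟩; exact hk x g⟩
    · rintro ⟨a, k, rfl⟩
      exact ⟨a, k, fun _ _ => rfl⟩
  · exact ⟨rfl, fun _ _ => rfl, fun _ _ => rfl, fun _ _ => rfl, fun _ => rfl⟩
  · intro a
    refine ⟨⟨a.comp ⟨fun x => K (0, x), by fun_prop⟩, ?_⟩,
      ⟨a.comp ⟨fun g => g +ᵥ c, by fun_prop⟩, ?_⟩⟩
    · intro x g
      show a (g +ᵥ K (0, x)) = a (K (0, g +ᵥ x))
      rw [hK0]
    · intro x g
      show a (g +ᵥ K (1, x)) = a (g +ᵥ c)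
      rw [hK1]
  · intro a ah h hah t x g
    show a ((g + h) +ᵥ K (t, x)) = ah (g +ᵥ K (t, x))
    rw [hah, ← add_vadd, add_comm g h]

end

end Pool.Agent.Results.MP_003b3e_an.PadicCounterexample
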